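import Mathlib
import Pool.Agent.PTS.Core

/-!
# MP_34ce6f_nt : no slowly growing set of primes suffices

The question asks whether every `n > 4` has `2 n = φ(p²) + φ(x²) + φ(y²)` with `p` prime and
`p ≤ x ≤ y`. We show that for every shift `c` there are only `O(N / (log N)^(1/4))` integers
`n ≤ N` with `2 n - c = φ(x²) + φ(y²)`, uniformly in `c` (although there are far more than `N`
pairs `x, y`). So for almost all `n` every prime `p` which occurs in a representation exceeds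
`K (log n)^(1/4)`, for every constant `K`.
-/

set_option autoImplicit false

open Filter Topology

namespace Pool.Agent.Results.MP_34ce6f_nt.SmallestPrime

theorem sq_eq (m : ℕ) : Nat.totient (m ^ 2) = m * Nat.totient m := by
  rcases Nat.eq_zero_or_pos m with rfl | hm
  · simp
  · have h1 : (m ^ 2).primeFactors = m.primeFactors := Nat.primeFactors_pow m two_ne_zero
    rw [Nat.totient_eq_div_primeFactors_mul, Nat.totient_eq_div_primeFactors_mul m, h1, pow_two,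
      Nat.mul_div_assoc _ (Nat.prod_primeFactors_dvd m), mul_assoc]

/-- the integers `n ≤ N` for which `2 n - c` is a sum of two totients of squares -/
def Two (c N : ℕ) : Set ℕ := {n | 1 ≤ n ∧ n ≤ N ∧ ∃ x y : ℕ, 1 ≤ x ∧ 1 ≤ y ∧
  2 * n = c + Nat.totient (x ^ 2) + Nat.totient (y ^ 2)}

/-- the integers `n ≤ N` with a representation in which one variable is in `A` -/
def Rep (A : Set ℕ) (N : ℕ) : Set ℕ := {n | 1 ≤ n ∧ n ≤ N ∧ ∃ a ∈ A, 1 ≤ a ∧ ∃ x y : ℕ, 1 ≤ x ∧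
  1 ≤ y ∧ 2 * n = Nat.totient (a ^ 2) + Nat.totient (x ^ 2) + Nat.totient (y ^ 2)}

theorem two_bd : ∃ C : ℝ, 0 < C ∧ ∀ c N : ℕ, 16 ≤ N →
    ((Two c N).ncard : ℝ) ≤ C * N / Real.log N ^ (1 / 4 : ℝ) := by
  classical
  obtain ⟨C, hC, h⟩ := PTS.core
  refine ⟨C, hC, fun c N hN => ?_⟩
  have h1 := h c N hN
  have e : Two c N = (((Finset.Ioc 0 N).filter fun n => ∃ x y : ℕ, 1 ≤ x ∧ 1 ≤ y ∧
      2 * n = c + x * Nat.totient x + y * Nat.totient y : Finset ℕ) : Set ℕ) := by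
    ext n
    simp only [Two, sq_eq, Set.mem_ofPred_eq, Finset.coe_filter, Finset.mem_Ioc]
    constructor
    · rintro ⟨h2, h3, h4⟩
      exact ⟨⟨h2, h3⟩, h4⟩
    · rintro ⟨⟨h2, h3⟩, h4⟩
      exact ⟨h2, h3, h4⟩
  rw [e, Set.ncard_coe_finset]
  exact h1

theorem rep_bd (C : ℝ) (h : ∀ c N : ℕ, 16 ≤ N →
    ((Two c N).ncard : ℝ) ≤ C * N / Real.log N ^ (1 / 4 : ℝ)) (A : Set ℕ) (N : ℕ)
    (hN : 16 ≤ N) :
    ((Rep A N).ncard : ℝ) ≤
      C * (A ∩ Set.Icc 1 (2 * N)).ncard * N / Real.log N ^ (1 / 4 : ℝ) := by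
  classical
  have hfin : (A ∩ Set.Icc 1 (2 * N)).Finite := (Set.finite_Icc 1 (2 * N)).inter_of_right A
  set F := hfin.toFinset with hF
  have hsub : Rep A N ⊆ ⋃ a ∈ F, Two (Nat.totient (a ^ 2)) N := by
    rintro n ⟨h1, h2, a, ha, ha1, x, y, hx, hy, he⟩
    have h3 : a ≤ 2 * N := by
      have := PTS.le_self_mul a ha1
      rw [← sq_eq] at this
      omega
    simp only [Set.mem_iUnion]
    refine ⟨a, ?_, h1, h2, x, y, hx, hy, he⟩
    rw [hF, Set.Finite.mem_toFinset]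
    exact ⟨ha, ha1, h3⟩
  have htwo : ∀ c, (Two c N).Finite := fun c =>
    (Set.finite_Icc 1 N).subset fun n hn => ⟨hn.1, hn.2.1⟩
  have h1 : (Rep A N).ncard ≤ ∑ a ∈ F, (Two (Nat.totient (a ^ 2)) N).ncard := by
    refine (Set.ncard_le_ncard hsub (Set.Finite.biUnion F.finite_toSet fun a _ => htwo _)).trans ?_
    exact Finset.set_ncard_biUnion_le F _
  have h2 : ((Rep A N).ncard : ℝ) ≤ ∑ a ∈ F, ((Two (Nat.totient (a ^ 2)) N).ncard : ℝ) := by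
    exact_mod_cast h1
  refine h2.trans ((Finset.sum_le_sum fun a _ => h _ N hN).trans (le_of_eq ?_))
  rw [Finset.sum_const, nsmul_eq_mul, Set.ncard_eq_toFinset_card _ hfin]
  ring

theorem ends (C : ℝ) (hC : 0 < C) (h : ∀ (A : Set ℕ) (N : ℕ), 16 ≤ N →
    ((Rep A N).ncard : ℝ) ≤
      C * (A ∩ Set.Icc 1 (2 * N)).ncard * N / Real.log N ^ (1 / 4 : ℝ)) (K : ℝ) (hK : 0 < K) :
    Tendsto (fun N : ℕ => (({n : ℕ | n ≤ N ∧ ∃ p x y : ℕ, p.Prime ∧
      (p : ℝ) ≤ K * Real.log n ^ (1 / 4 : ℝ) ∧ 1 ≤ x ∧ 1 ≤ y ∧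
      2 * n = Nat.totient (p ^ 2) + Nat.totient (x ^ 2) + Nat.totient (y ^ 2)}.ncard : ℕ) : ℝ)
        / N) atTop (𝓝 0) := by
  classical
  have hL : Tendsto (fun N : ℕ => K * Real.log N ^ (1 / 4 : ℝ)) atTop atTop :=
    ((tendsto_rpow_atTop (by norm_num)).comp
      (Real.tendsto_log_atTop.comp tendsto_natCast_atTop_atTop)).const_mul_atTop hK
  have hpi := hL.eventually (Chebyshev.eventually_primeCounting_le (ε := 1) one_pos)
  have hlim : Tendsto (fun N : ℕ => C * (Real.log 4 + 1) * K /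
      Real.log (K * Real.log N ^ (1 / 4 : ℝ))) atTop (𝓝 0) :=
    Tendsto.div_atTop tendsto_const_nhds (Real.tendsto_log_atTop.comp hL)
  refine squeeze_zero' (Eventually.of_forall fun N => by positivity) ?_ hlim
  filter_upwards [eventually_ge_atTop 16, hpi, hL.eventually_gt_atTop 1] with N hN hp hK1
  have hN' : (16 : ℝ) ≤ N := by exact_mod_cast hN
  set Q := K * Real.log N ^ (1 / 4 : ℝ) with hQ
  have hlogN : 0 < Real.log N := Real.log_pos (by linarith)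
  have hLpos : 0 < Real.log N ^ (1 / 4 : ℝ) := Real.rpow_pos_of_pos hlogN _
  set A : Set ℕ := {p | p.Prime ∧ (p : ℝ) ≤ Q} with hA
  have h1 := h A N hN
  have hsub : {n : ℕ | n ≤ N ∧ ∃ p x y : ℕ, p.Prime ∧
      (p : ℝ) ≤ K * Real.log n ^ (1 / 4 : ℝ) ∧ 1 ≤ x ∧ 1 ≤ y ∧
      2 * n = Nat.totient (p ^ 2) + Nat.totient (x ^ 2) + Nat.totient (y ^ 2)} ⊆ Rep A N := by
    rintro n ⟨h2, p, x, y, hp1, hp2, hx, hy, he⟩
    have hn : 1 ≤ n := by
      have : 0 < Nat.totient (x ^ 2) := Nat.totient_pos.2 (by positivity)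
      omega
    refine ⟨hn, h2, p, ⟨hp1, hp2.trans ?_⟩, hp1.one_le, x, y, hx, hy, he⟩
    have hn' : (1 : ℝ) ≤ n := by exact_mod_cast hn
    have hn2 : (n : ℝ) ≤ N := by exact_mod_cast h2
    exact mul_le_mul_of_nonneg_left (Real.rpow_le_rpow (Real.log_nonneg hn')
      (Real.log_le_log (by linarith) hn2) (by norm_num)) hK.le
  have hfinR : (Rep A N).Finite := (Set.finite_Icc 1 N).subset fun n hn => ⟨hn.1, hn.2.1⟩
  have h2 : (({n : ℕ | n ≤ N ∧ ∃ p x y : ℕ, p.Prime ∧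
      (p : ℝ) ≤ K * Real.log n ^ (1 / 4 : ℝ) ∧ 1 ≤ x ∧ 1 ≤ y ∧
      2 * n = Nat.totient (p ^ 2) + Nat.totient (x ^ 2) + Nat.totient (y ^ 2)}.ncard : ℕ) : ℝ) ≤
      (Rep A N).ncard := by
    exact_mod_cast Set.ncard_le_ncard hsub hfinR
  have h3 : ((A ∩ Set.Icc 1 (2 * N)).ncard : ℝ) ≤ (Real.log 4 + 1) * Q / Real.log Q := by
    refine le_trans ?_ hp
    have h4 : A ∩ Set.Icc 1 (2 * N) ⊆ ((Nat.primesLE ⌊Q⌋₊ : Finset ℕ) : Set ℕ) := by
      rintro p ⟨⟨hp1, hp2⟩, -⟩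
      rw [Finset.mem_coe, Nat.mem_primesLE]
      exact ⟨Nat.le_floor hp2, hp1⟩
    have h5 := Set.ncard_le_ncard h4 (Finset.finite_toSet _)
    rw [Set.ncard_coe_finset, Nat.primesLE_card_eq_primeCounting] at h5
    exact_mod_cast h5
  have hlogQ : 0 < Real.log Q := Real.log_pos hK1
  rw [div_le_iff₀ (by linarith)]
  calc _ ≤ ((Rep A N).ncard : ℝ) := h2
    _ ≤ C * (A ∩ Set.Icc 1 (2 * N)).ncard * N / Real.log N ^ (1 / 4 : ℝ) := h1
    _ ≤ C * ((Real.log 4 + 1) * Q / Real.log Q) * N / Real.log N ^ (1 / 4 : ℝ) := by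
        gcongr
    _ = C * (Real.log 4 + 1) * K / Real.log Q * N := by
        rw [hQ]
        field_simp

theorem result :
    ∃ C : ℝ, 0 < C ∧
      (∀ c N : ℕ, 16 ≤ N → ((Two c N).ncard : ℝ) ≤ C * N / Real.log N ^ (1 / 4 : ℝ)) ∧
      (∀ (A : Set ℕ) (N : ℕ), 16 ≤ N → ((Rep A N).ncard : ℝ) ≤
        C * (A ∩ Set.Icc 1 (2 * N)).ncard * N / Real.log N ^ (1 / 4 : ℝ)) ∧
      ∀ K : ℝ, 0 < K →
        Tendsto (fun N : ℕ => (({n : ℕ | n ≤ N ∧ ∃ p x y : ℕ, p.Prime ∧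
          (p : ℝ) ≤ K * Real.log n ^ (1 / 4 : ℝ) ∧ 1 ≤ x ∧ 1 ≤ y ∧
          2 * n = Nat.totient (p ^ 2) + Nat.totient (x ^ 2) +
            Nat.totient (y ^ 2)}.ncard : ℕ) : ℝ) / N) atTop (𝓝 0) := by
  obtain ⟨C, hC, h⟩ := two_bd
  have h2 := fun (A : Set ℕ) (N : ℕ) (hN : 16 ≤ N) => rep_bd C h A N hN
  exact ⟨C, hC, h, h2, fun K hK => ends C hC h2 K hK⟩

end Pool.Agent.Results.MP_34ce6f_nt.SmallestPrime
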